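import Pool.Agent.NilAm.Main

/-!
# Group algebras with nil augmentation ideal: amenability

Over an uncountable field a group whose group algebra has a nil augmentation ideal is amenable.
For every field `K` and every non-amenable group `G` some matrix with entries in the augmentation
ideal of `K[G]` is not nilpotent.
-/

open scoped Pointwise

namespace Pool.Agent.Results.MP_f21a8b_al.Amenable

/-- Foelner's condition (for discrete groups it is equivalent to amenability): for every finite
subset `S` of `G` and every `ε > 0` there is a finite nonempty `F ⊆ G` with
`|F S \ F| ≤ ε |F|`. -/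
def FoelnerCondition (G : Type*) [Group G] : Prop :=
  ∀ (S : Finset G) (ε : ℝ), 0 < ε → ∃ F : Finset G, F.Nonempty ∧
    ((((F : Set G) * (S : Set G)) \ (F : Set G)).ncard : ℝ) ≤ ε * F.card

/-- (1) If `K` is uncountable and the augmentation ideal of `K[G]` (generated by the `g - 1`) is
nil, then `G` is amenable. (2) For every field `K` and every non-amenable group `G` there is a
square matrix over `K[G]` with all entries in the augmentation ideal which is not nilpotent. -/
theorem result (K : Type*) (G : Type*) [Field K] [Group G] :
    (Uncountable K →
      (∀ x ∈ Ideal.span {y : MonoidAlgebra K G | ∃ g : G, y = MonoidAlgebra.of K G g - 1},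
        IsNilpotent x) → FoelnerCondition G) ∧
    (¬ FoelnerCondition G →
      ∃ (m : ℕ) (T : Matrix (Fin m) (Fin m) (MonoidAlgebra K G)),
        (∀ i j, T i j ∈
          Ideal.span {y : MonoidAlgebra K G | ∃ g : G, y = MonoidAlgebra.of K G g - 1}) ∧
        ¬ IsNilpotent T) :=
  ⟨fun _ hnil => NilAm.foelner_of_nil hnil, fun h => NilAm.exists_matrix h⟩

end Pool.Agent.Results.MP_f21a8b_al.Amenable
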