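import Pool.Agent.BBT.Just

/-!
# Group algebras with nil augmentation ideal: Burnside's basis theorem and just infinite quotients

Let `K` be a field of characteristic `p` and `G` a finitely generated group such that the
augmentation ideal of `K[G]` is nil. Each proper subgroup of `G` lies in a normal subgroup of index
`p`, and a subgroup of infinite index lies in all members of an infinite chain of subgroups, each
normal of index `p` in the one before. Consequently, if `G` is infinite, then some quotient of `G`
is infinite, just infinite and residually finite, and the augmentation ideal of its group algebra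
is nil again.
-/

namespace Pool.Agent.Results.MP_f21a8b_al.BurnsideBasis

/-- Every element of the augmentation ideal of `K[G]` (generated by the `g - 1`) is nilpotent. -/
def NilAug (K G : Type) [Field K] [Group G] : Prop :=
  ∀ x ∈ Ideal.span {y : MonoidAlgebra K G | ∃ g : G, y = MonoidAlgebra.of K G g - 1},
    IsNilpotent x

/-- `G` is infinite and every nontrivial normal subgroup has finite index. -/
def JustInfinite (G : Type) [Group G] : Prop :=
  Infinite G ∧ ∀ N : Subgroup G, N.Normal → N ≠ ⊥ → N.index ≠ 0

/-- Every element other than `1` lies outside some normal subgroup of finite index. -/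
def ResiduallyFinite (G : Type) [Group G] : Prop :=
  ∀ g : G, g ≠ 1 → ∃ N : Subgroup G, N.Normal ∧ N.index ≠ 0 ∧ g ∉ N

/-- Let `K` be a field of characteristic `p > 0` and `G` a finitely generated group such that every
element of the augmentation ideal of `K[G]` is nilpotent. Every proper subgroup of `G` lies in a
normal subgroup of index `p`, and every subgroup of infinite index lies in all members of a chain
`G = N 0 > N 1 > ...`, each normal of index `p` in the one before. If `G` is infinite then some
quotient of `G` is infinite, just infinite and residually finite, and every element of its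
augmentation ideal over `K` is nilpotent. -/
theorem result (p : ℕ) [Fact p.Prime] (K : Type) [Field K] [CharP K p] (G : Type) [Group G]
    (hG : Group.FG G) (hnil : NilAug K G) :
    (∀ M : Subgroup G, M ≠ ⊤ → ∃ N : Subgroup G, N.Normal ∧ N.index = p ∧ M ≤ N) ∧
    (∀ M : Subgroup G, M.index = 0 → ∃ N : ℕ → Subgroup G, N 0 = ⊤ ∧ ∀ i, M ≤ N i ∧
      N (i + 1) ≤ N i ∧ ((N (i + 1)).subgroupOf (N i)).Normal ∧
      (N (i + 1)).relIndex (N i) = p) ∧
    (Infinite G → ∃ (N : Subgroup G) (_ : N.Normal), JustInfinite (G ⧸ N) ∧
      ResiduallyFinite (G ⧸ N) ∧ NilAug K (G ⧸ N)) := by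
  refine ⟨fun M hM => BBT.exists_normal p hnil M hM,
    fun M hM => BBT.exists_chain p hnil M hM, fun hinf => ?_⟩
  obtain ⟨N, hN, hJ⟩ := BBT.exists_justInf G
  have hnilJ : NilExt.Nil K (G ⧸ N) :=
    NilExt.Nil.of_surjective hnil (QuotientGroup.mk' N) (QuotientGroup.mk'_surjective N)
  exact ⟨N, hN, hJ, BBT.resFin_of_justInf p hnilJ hJ, hnilJ⟩

end Pool.Agent.Results.MP_f21a8b_al.BurnsideBasis
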