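import Pool.Agent.NilExt.Tfae

/-!
# Group algebras with nil augmentation ideal: extensions

Over a field `K` of characteristic `p` call a group nil if all elements of its augmentation ideal are
nilpotent. Wreath products `D ≀ H` with `H` infinite and finitely generated, and the extensions
`F ⧸ R'R^p` with `F` free of finite rank and `F ⧸ R` infinite, are never nil; so all nil groups are
locally finite if and only if the class of nil groups is closed under extensions.
-/

namespace Pool.Agent.Results.MP_f21a8b_al.Extensions

/-- Every element of the augmentation ideal of `K[G]` (generated by the `g - 1`) is nilpotent. -/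
def NilAug (K G : Type) [Field K] [Group G] : Prop :=
  ∀ x ∈ Ideal.span {y : MonoidAlgebra K G | ∃ g : G, y = MonoidAlgebra.of K G g - 1},
    IsNilpotent x

/-- The normal subgroup generated by all commutators and all `p`-th powers of elements of `R`. -/
def pKernel {F : Type} [Group F] (p : ℕ) (R : Subgroup F) : Subgroup F :=
  Subgroup.normalClosure
    ({x | ∃ a ∈ R, ∃ b ∈ R, x = a * b * a⁻¹ * b⁻¹} ∪ {x | ∃ a ∈ R, x = a ^ p})

instance {F : Type} [Group F] (p : ℕ) (R : Subgroup F) : (pKernel p R).Normal :=
  Subgroup.normalClosure_normal

/-- Let `K` be a field of characteristic `p > 0`.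
(1) If `G` is nil and `S` is a finite subset of `G` then for all but finitely many `g ∈ G` the number
of words of length `n` in `S` with product `g` is divisible by `p` for every `n`.
(2) Wreath products of a nontrivial group and an infinite finitely generated group are not nil.
(3) `F ⧸ R'R^p` is not nil if `F` is free of finite rank and `F ⧸ R` is infinite.
(4) Equivalent are: every nil group is locally finite; the class of nil groups is closed under
extensions; it is closed under `H ↦ C_p ≀ H`; it is closed under `F ⧸ R ↦ F ⧸ R'R^p`, `F` free of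
finite rank. -/
theorem result (p : ℕ) [Fact p.Prime] (K : Type) [Field K] [CharP K p] :
    (∀ (G : Type) [Group G], NilAug K G → ∀ S : Finset G,
      {g : G | ∃ n : ℕ, ¬ p ∣
        Nat.card {w : Fin n → S // (List.ofFn fun i => (w i : G)).prod = g}}.Finite) ∧
    (∀ (D H : Type) [Group D] [Group H], Nontrivial D → Infinite H → Group.FG H →
      ¬ NilAug K (D ≀ᵣ H)) ∧
    (∀ (k : ℕ) (R : Subgroup (FreeGroup (Fin k))) [R.Normal], Infinite (FreeGroup (Fin k) ⧸ R) →
      ¬ NilAug K (FreeGroup (Fin k) ⧸ pKernel p R)) ∧
    List.TFAE [
      ∀ (G : Type) [Group G], NilAug K G →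
        ∀ S : Finset G, Finite (Subgroup.closure (S : Set G)),
      ∀ (G : Type) [Group G] (N : Subgroup G) [N.Normal],
        NilAug K N → NilAug K (G ⧸ N) → NilAug K G,
      ∀ (H : Type) [Group H], NilAug K H → NilAug K (Multiplicative (ZMod p) ≀ᵣ H),
      ∀ (k : ℕ) (R : Subgroup (FreeGroup (Fin k))) [R.Normal],
        NilAug K (FreeGroup (Fin k) ⧸ R) → NilAug K (FreeGroup (Fin k) ⧸ pKernel p R)] := by
  refine ⟨fun G _ h S => NilExt.words p h S,
    fun D H _ _ hD hH hf => NilExt.wreath_not_nil K,
    fun k R _ hR => NilExt.magnus_not_nil K p k R, ?_⟩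
  tfae_have 1 → 2 := fun h G _ N _ => NilExt.one_two p K h G N
  tfae_have 2 → 3 := fun h H _ => NilExt.two_three p K h H
  tfae_have 3 → 1 := fun h G _ => NilExt.three_one p K h G
  tfae_have 2 → 4 := fun h k R _ => NilExt.two_four p K h k R
  tfae_have 4 → 1 := fun h G _ => NilExt.four_one p K h G
  tfae_finish

end Pool.Agent.Results.MP_f21a8b_al.Extensions
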