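import Pool.Agent.Hhelper95.NilAug.Hankel

/-!
# Group algebras with nil augmentation ideal: fat geodesic intervals

Let `F` be a finite field, `K` an infinite extension field of `F` and `G` a group whose
augmentation ideal over `K` is nil. Then

* Hankel ranks of functionals `ψ : G → F` that vanish on short products of elements of `S` but not
  on some product of `m` elements tend to infinity with `m`, uniformly in `ψ`;
* geodesic intervals in all coset graphs `G ⧸ L` become arbitrarily wide, uniformly in `L` and in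
  the end points, as the distance of the end points grows;
* spheres around any point of an infinite orbit of a finitely generated subgroup have unbounded
  size, and geodesic bigons in such an orbit are not uniformly thin, so that its Schreier graph is
  not Gromov hyperbolic.
-/

open scoped Pointwise

namespace Pool.Agent.Results.MP_f21a8b_al.FatIntervals

open Pool.Agent.Hhelper95.NilAug

section aux

variable {F G : Type*} [Field F] [Group G] [DecidableEq G]

/-- The rank of the Hankel matrix of an indicator function is bounded by the size of the layer. -/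
theorem rank_le_layer {Y : Type*} [MulAction G Y] (S : Finset G) (y z : Y) (n j : ℕ)
    (ψ : G → F) (h1 : ∀ g, g • y = z → ψ g = 1) (h0 : ∀ g, g • y ≠ z → ψ g = 0) :
    (Matrix.of fun (g : (S ^ n : Finset G)) (h : (S ^ j : Finset G)) => ψ (g * h)).rank
      ≤ {u : Y | (∃ h ∈ S ^ j, h • y = u) ∧ ∃ g ∈ S ^ n, g • u = z}.ncard := by
  classical
  set I : Set Y := {u : Y | (∃ h ∈ S ^ j, h • y = u) ∧ ∃ g ∈ S ^ n, g • u = z} with hI
  have hfin : I.Finite := by
    apply ((S ^ j : Finset G).finite_toSet.image (fun h => h • y)).subset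
    rintro u ⟨⟨h, hh, rfl⟩, -⟩
    exact ⟨h, hh, rfl⟩
  have : Fintype I := hfin.fintype
  have hfac : (Matrix.of fun (g : (S ^ n : Finset G)) (h : (S ^ j : Finset G)) =>
      (ψ (g * h) : F))
      = (Matrix.of fun (g : (S ^ n : Finset G)) (u : I) =>
          if (g : G) • (u : Y) = z then (1 : F) else 0) *
        (Matrix.of fun (u : I) (h : (S ^ j : Finset G)) =>
          if (h : G) • y = (u : Y) then (1 : F) else 0) := by
    ext g h
    rw [Matrix.mul_apply]
    simp only [Matrix.of_apply]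
    by_cases hgh : ((g : G) * (h : G)) • y = z
    · have hmem : (h : G) • y ∈ I := ⟨⟨h, h.2, rfl⟩, g, g.2, by rw [← mul_smul]; exact hgh⟩
      rw [h1 _ hgh, Finset.sum_eq_single (⟨(h : G) • y, hmem⟩ : I)]
      · rw [← mul_smul, if_pos hgh, if_pos rfl, one_mul]
      · intro u _ hu
        rw [if_neg (c := (h : G) • y = (u : Y)), mul_zero]
        intro h2
        exact hu (Subtype.ext h2.symm)
      · intro h2
        exact absurd (Finset.mem_univ _) h2
    · rw [h0 _ hgh]
      symm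
      apply Finset.sum_eq_zero
      intro u _
      by_cases h2 : (h : G) • y = (u : Y)
      · rw [if_neg (c := (g : G) • (u : Y) = z), zero_mul]
        rw [← h2, ← mul_smul]
        exact hgh
      · rw [if_neg h2, mul_zero]
  rw [hfac]
  refine (Matrix.rank_mul_le_left _ _).trans ((Matrix.rank_le_card_width _).trans ?_)
  rw [← Nat.card_eq_fintype_card]
  exact le_of_eq (Nat.card_coe_set_eq I)

end aux

section torsion

variable {F K G : Type*} [Field F] [Field K] [Algebra F K] [Group G]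

/-- Elements of finite order. -/
theorem isOfFinOrder_of_nil
    (hnil : ∀ x ∈ Ideal.span {y : MonoidAlgebra K G | ∃ g : G, y = MonoidAlgebra.of K G g - 1},
      IsNilpotent x) (hF : Finite F) (g : G) : IsOfFinOrder g := by
  obtain ⟨p, hp⟩ := CharP.exists F
  have hprime : p.Prime := by
    have := Fintype.ofFinite F
    exact CharP.char_is_prime F p
  have : Fact p.Prime := ⟨hprime⟩
  have : CharP K p := charP_of_injective_algebraMap (algebraMap F K).injective p
  have : CharP (MonoidAlgebra K G) p :=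
    charP_of_injective_algebraMap (algebraMap K (MonoidAlgebra K G)).injective p
  obtain ⟨k, hk⟩ := hnil (MonoidAlgebra.of K G g - 1) (Ideal.subset_span ⟨g, rfl⟩)
  have h1 : (MonoidAlgebra.of K G g - 1) ^ (p ^ k) = 0 := by
    obtain ⟨d, hd⟩ := Nat.exists_eq_add_of_le (Nat.lt_pow_self hprime.one_lt (n := k)).le
    rw [hd, pow_add, hk, zero_mul]
  have h2 : (MonoidAlgebra.of K G g - 1) ^ (p ^ k)
      = (MonoidAlgebra.of K G g) ^ (p ^ k) - 1 ^ (p ^ k) :=
    sub_pow_char_pow_of_commute _ _ (Commute.one_right _)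
  rw [h1, one_pow, ← map_pow] at h2
  have h3 : MonoidAlgebra.of K G (g ^ p ^ k) = MonoidAlgebra.of K G 1 := by
    rw [map_one]
    exact (sub_eq_zero.1 h2.symm)
  have h4 := MonoidAlgebra.of_injective h3
  exact isOfFinOrder_iff_pow_eq_one.2 ⟨p ^ k, pow_pos hprime.pos k, h4⟩

end torsion

section orbits

variable {K G : Type*} [Field K] [Group G] [DecidableEq G]

/-- Fat geodesic intervals in coset graphs. -/
theorem intervals (F : Type*) [Field F] [Finite F] [Algebra F K] [Infinite K]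
    (hnil : ∀ x ∈ Ideal.span {y : MonoidAlgebra K G | ∃ g : G, y = MonoidAlgebra.of K G g - 1},
      IsNilpotent x) (S : Finset G) (w : ℕ) :
    ∃ m₀ : ℕ, ∀ m, m₀ ≤ m → ∀ (L : Subgroup G) (y z : G ⧸ L),
      (∀ i < m, ∀ g ∈ S ^ i, g • y ≠ z) → (∃ g ∈ S ^ m, g • y = z) → ∃ j ≤ m, w <
        {u : G ⧸ L | (∃ h ∈ S ^ j, h • y = u) ∧ ∃ g ∈ S ^ (m - j), g • u = z}.ncard := by
  classical
  obtain ⟨m₀, hm₀⟩ := hankel (F := F) (K := K) hnil S w
  refine ⟨m₀, ?_⟩
  intro m hm L y z hlt heq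
  let ψ : G → F := fun g => if g • y = z then 1 else 0
  have hψ1 : ∀ g, g • y = z → ψ g = 1 := fun g hg => if_pos hg
  have hψ0 : ∀ g, g • y ≠ z → ψ g = 0 := fun g hg => if_neg hg
  obtain ⟨j, hj, hw⟩ := hm₀ m hm ψ (fun i hi g hg => hψ0 g (hlt i hi g hg)) (by
    obtain ⟨g, hg, hgz⟩ := heq
    exact ⟨g, hg, by rw [hψ1 g hgz]; exact one_ne_zero⟩)
  exact ⟨j, hj, lt_of_lt_of_le hw (rank_le_layer S y z (m - j) j ψ hψ1 hψ0)⟩

/-- In an infinite orbit there are points at every large distance. -/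
theorem exists_far (F : Type*) [Field F] [Finite F] [Algebra F K]
    (hnil : ∀ x ∈ Ideal.span {y : MonoidAlgebra K G | ∃ g : G, y = MonoidAlgebra.of K G g - 1},
      IsNilpotent x) (S : Finset G) (m₀ : ℕ) (L : Subgroup G)
    (y : G ⧸ L) (hinf : (MulAction.orbit (Subgroup.closure (S : Set G)) y).Infinite) :
    ∃ m, m₀ ≤ m ∧ ∃ z : G ⧸ L, (∀ i < m, ∀ g ∈ S ^ i, g • y ≠ z) ∧ ∃ g ∈ S ^ m, g • y = z := by
  classical
  have hfo : ∀ x ∈ (S : Set G), IsOfFinOrder x :=
    fun x _ => isOfFinOrder_of_nil (F := F) hnil inferInstance x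
  have hcl := Subgroup.closure_toSubmonoid_of_isOfFinOrder hfo
  have horb : ∀ u ∈ MulAction.orbit (Subgroup.closure (S : Set G)) y,
      ∃ n, ∃ g ∈ S ^ n, g • y = u := by
    rintro u ⟨⟨g, hg⟩, rfl⟩
    have hg' : g ∈ Submonoid.closure (S : Set G) := by
      rw [← hcl]
      exact hg
    have : ∃ n, g ∈ S ^ n := by
      clear hg
      induction hg' using Submonoid.closure_induction with
      | mem x hx => exact ⟨1, by simpa using hx⟩
      | one => exact ⟨0, by simp⟩
      | mul a b _ _ ha hb =>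
        obtain ⟨n, hn⟩ := ha
        obtain ⟨n', hn'⟩ := hb
        exact ⟨n + n', by rw [pow_add]; exact Finset.mul_mem_mul hn hn'⟩
    obtain ⟨n, hn⟩ := this
    exact ⟨n, g, hn, rfl⟩
  obtain ⟨z, hz, hzd⟩ : ∃ z ∈ MulAction.orbit (Subgroup.closure (S : Set G)) y,
      ∀ i < m₀, ∀ g ∈ S ^ i, g • y ≠ z := by
    by_contra hcon
    push Not at hcon
    apply hinf
    have hfin : (⋃ i ∈ Finset.range m₀, (fun g => g • y) '' ((S ^ i : Finset G) : Set G)).Finite :=
      Set.Finite.biUnion (Finset.finite_toSet _) (fun i _ => (Finset.finite_toSet _).image _)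
    refine hfin.subset ?_
    intro u hu
    obtain ⟨i, hi, g, hg, hgu⟩ := hcon u hu
    simp only [Set.mem_iUnion]
    exact ⟨i, Finset.mem_range.2 hi, g, hg, hgu⟩
  have hex : ∃ n, ∃ g ∈ S ^ n, g • y = z := horb z hz
  have hspec := Nat.find_spec hex
  refine ⟨Nat.find hex, ?_, z, ?_, hspec⟩
  · by_contra hlt
    obtain ⟨g, hg, hgz⟩ := hspec
    exact hzd _ (not_le.1 hlt) g hg hgz
  · intro i hi g hg h
    exact Nat.find_min hex hi ⟨g, hg, h⟩

end orbits

/-- **Nil augmentation ideals force fat geodesic intervals.** -/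
theorem result {F K G : Type*} [Field F] [Finite F] [Field K] [Infinite K] [Algebra F K]
    [Group G] [DecidableEq G]
    (hnil : ∀ x ∈ Ideal.span {y : MonoidAlgebra K G | ∃ g : G, y = MonoidAlgebra.of K G g - 1},
      IsNilpotent x) (S : Finset G) :
    (∀ w : ℕ, ∃ m₀ : ℕ, ∀ m, m₀ ≤ m → ∀ ψ : G → F, (∀ i < m, ∀ g ∈ S ^ i, ψ g = 0) →
      (∃ g ∈ S ^ m, ψ g ≠ 0) → ∃ j ≤ m, w <
        (Matrix.of fun (g : (S ^ (m - j) : Finset G)) (h : (S ^ j : Finset G)) =>
          ψ (g * h)).rank) ∧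
    (∀ w : ℕ, ∃ m₀ : ℕ, ∀ m, m₀ ≤ m → ∀ (L : Subgroup G) (y z : G ⧸ L),
      (∀ i < m, ∀ g ∈ S ^ i, g • y ≠ z) → (∃ g ∈ S ^ m, g • y = z) → ∃ j ≤ m, w <
        {u : G ⧸ L | (∃ h ∈ S ^ j, h • y = u) ∧ ∃ g ∈ S ^ (m - j), g • u = z}.ncard) ∧
    (∀ (w : ℕ) (L : Subgroup G) (y : G ⧸ L),
      (MulAction.orbit (Subgroup.closure (S : Set G)) y).Infinite → ∃ j, w <
        {u : G ⧸ L | (∃ h ∈ S ^ j, h • y = u) ∧ ∀ i < j, ∀ h ∈ S ^ i, h • y ≠ u}.ncard) ∧
    (∀ (δ : ℕ) (L : Subgroup G) (y : G ⧸ L),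
      (MulAction.orbit (Subgroup.closure (S : Set G)) y).Infinite →
      ∃ (m : ℕ) (z : G ⧸ L), (∀ i < m, ∀ g ∈ S ^ i, g • y ≠ z) ∧
        ∃ j ≤ m, ∃ u v : G ⧸ L,
          ((∃ h ∈ S ^ j, h • y = u) ∧ ∃ g ∈ S ^ (m - j), g • u = z) ∧
          ((∃ h ∈ S ^ j, h • y = v) ∧ ∃ g ∈ S ^ (m - j), g • v = z) ∧
          ∀ i ≤ δ, ∀ g ∈ S ^ i, g • u ≠ v) := by
  classical
  refine ⟨fun w => hankel (F := F) (K := K) hnil S w,
    fun w => intervals F hnil S w, ?_, ?_⟩
  · intro w L y hinf
    obtain ⟨m₀, hA⟩ := intervals F hnil S w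
    obtain ⟨m, hm, z, hmin, hspec⟩ := exists_far F hnil S m₀ L y hinf
    obtain ⟨j, hj, hw⟩ := hA m hm L y z hmin hspec
    refine ⟨j, lt_of_lt_of_le hw (Set.ncard_le_ncard ?_ ?_)⟩
    · rintro u ⟨hu1, g, hg, hgu⟩
      refine ⟨hu1, ?_⟩
      intro i hi h hh hhu
      apply hmin (m - j + i) (by omega) (g * h)
      · rw [pow_add]
        exact Finset.mul_mem_mul hg hh
      · rw [mul_smul, hhu, hgu]
    · apply ((S ^ j : Finset G).finite_toSet.image (fun h => h • y)).subset
      rintro u ⟨⟨h, hh, rfl⟩, -⟩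
      exact ⟨h, hh, rfl⟩
  · intro δ L y hinf
    obtain ⟨m₀, hA⟩ := intervals F hnil S
      (∑ i ∈ Finset.range (δ + 1), (S ^ i).card)
    obtain ⟨m, hm, z, hmin, hspec⟩ := exists_far F hnil S m₀ L y hinf
    obtain ⟨j, hj, hw⟩ := hA m hm L y z hmin hspec
    refine ⟨m, z, hmin, j, hj, ?_⟩
    by_contra hcon
    push Not at hcon
    obtain ⟨u, hu⟩ : {u : G ⧸ L | (∃ h ∈ S ^ j, h • y = u) ∧
        ∃ g ∈ S ^ (m - j), g • u = z}.Nonempty := by
      rw [Set.nonempty_iff_ne_empty]
      intro h0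
      rw [h0, Set.ncard_empty] at hw
      omega
    have hsub : {u : G ⧸ L | (∃ h ∈ S ^ j, h • y = u) ∧ ∃ g ∈ S ^ (m - j), g • u = z} ⊆
        (((Finset.range (δ + 1)).biUnion (fun i => (S ^ i).image (fun g => g • u)) :
          Finset (G ⧸ L)) : Set (G ⧸ L)) := by
      intro v hv
      obtain ⟨i, hi, g, hg, hgv⟩ := hcon u v hu hv
      simp only [Finset.coe_biUnion, Set.mem_iUnion, Finset.coe_image]
      exact ⟨i, by simpa using Nat.lt_succ_of_le hi, g, hg, hgv⟩
    have h1 := Set.ncard_le_ncard hsub (Finset.finite_toSet _)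
    rw [Set.ncard_coe_finset] at h1
    have h2 : ((Finset.range (δ + 1)).biUnion (fun i => (S ^ i).image (fun g => g • u))).card
        ≤ ∑ i ∈ Finset.range (δ + 1), (S ^ i).card :=
      Finset.card_biUnion_le.trans (Finset.sum_le_sum (fun i _ => Finset.card_image_le))
    omega

end Pool.Agent.Results.MP_f21a8b_al.FatIntervals
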